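import Pool.Agent.helper64.NQ.Spec

set_option autoImplicit false

namespace Pool.Agent.NQ

open Pool.Agent.helper58.DC Pool.Agent.DI Pool.Agent.DR

open Classical in
theorem GEN_fin {α : Type} [Fintype α] (s : Set α) (g : α → ℂ) :
    ∑ᶠ x ∈ s, g x = ∑ x, if x ∈ s then g x else 0 := by
  rw [finsum_mem_def, finsum_eq_sum_of_fintype]
  rfl

open Classical in
theorem GEN : GEN_stmt := by
  intro Q _ _ ι _ w V ω N hN
  haveI : Fintype Q := Fintype.ofFinite Q
  haveI : Fintype (Subgroup Q) := Fintype.ofFinite _
  let f : Q × Q → ℂ := fun x => ∑ i, if x.1 ∈ V i ∧ x.2 ∈ V i then w i * ((ω i x.1 x.2 : ℂˣ) : ℂ) else 0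
  let S : Subgroup Q → ℂ := fun U => ∑ x ∈ Finset.univ.filter (fun x : Q × Q => Subgroup.closure {x.1, x.2} = U), f x
  have h1 : ∀ U : Subgroup Q, ∑ i, w i * KQ (U ⊓ V i) (ω i) =
      ∑ x ∈ Finset.univ.filter (fun x : Q × Q => x.1 ∈ U ∧ x.2 ∈ U), f x := by
    intro U
    rw [Finset.sum_filter]
    have e1 : ∀ i, w i * KQ (U ⊓ V i) (ω i) = ∑ x : Q × Q, if x.1 ∈ U ∧ x.2 ∈ U then
        (if x.1 ∈ V i ∧ x.2 ∈ V i then w i * ((ω i x.1 x.2 : ℂˣ) : ℂ) else 0) else 0 := by
      intro i
      unfold KQ
      rw [GEN_fin, Finset.mul_sum]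
      apply Finset.sum_congr rfl
      intro x _
      simp only [Set.mem_setOf_eq, Subgroup.mem_inf]
      by_cases a : x.1 ∈ U <;> by_cases b : x.2 ∈ U <;> by_cases c : x.1 ∈ V i <;> by_cases d : x.2 ∈ V i <;>
        simp [a, b, c, d]
    rw [Finset.sum_congr rfl (fun i _ => e1 i), Finset.sum_comm]
    apply Finset.sum_congr rfl
    intro x _
    split_ifs with h
    · rfl
    · simp
  have h2 : ∀ U : Subgroup Q, U ≤ N → S U = 0 := by
    intro U
    induction U using WellFoundedLT.induction with
    | ind U ih =>
      intro hU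
      have e1 := h1 U
      rw [hN U hU] at e1
      have e2 := Finset.sum_fiberwise (Finset.univ.filter (fun x : Q × Q => x.1 ∈ U ∧ x.2 ∈ U))
        (fun x : Q × Q => Subgroup.closure {x.1, x.2}) f
      rw [← e1] at e2
      have e3 : ∀ j : Subgroup Q, ∑ x ∈ Finset.univ.filter (fun x : Q × Q => x.1 ∈ U ∧ x.2 ∈ U) with
          Subgroup.closure {x.1, x.2} = j, f x = if j ≤ U then S j else 0 := by
        intro j
        split_ifs with hj
        · apply Finset.sum_congr _ (fun _ _ => rfl)
          rw [Finset.filter_filter]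
          apply Finset.filter_congr
          intro x _
          constructor
          · exact fun h => h.2
          · intro h
            refine ⟨⟨hj ?_, hj ?_⟩, h⟩
            · rw [← h]; exact Subgroup.subset_closure (Set.mem_insert _ _)
            · rw [← h]; exact Subgroup.subset_closure (Set.mem_insert_of_mem _ rfl)
        · apply Finset.sum_eq_zero
          intro x hx
          exfalso
          rw [Finset.mem_filter, Finset.mem_filter] at hx
          apply hj
          rw [← hx.2, Subgroup.closure_le]
          intro y hy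
          rcases hy with rfl | rfl
          · exact hx.1.2.1
          · exact hx.1.2.2
      rw [Finset.sum_congr rfl (fun j _ => e3 j), Finset.sum_eq_single U] at e2
      · rwa [if_pos le_rfl] at e2
      · intro j _ hj
        split_ifs with hjU
        · exact ih j (lt_of_le_of_ne hjU hj) (hjU.trans hU)
        · rfl
      · intro h
        exact absurd (Finset.mem_univ U) h
  have h3 : S N = ∑ i, w i * (if N ≤ V i then JQ N (ω i) else 0) := by
    have e1 : ∀ i, w i * (if N ≤ V i then JQ N (ω i) else 0) =
        ∑ x : Q × Q, if Subgroup.closure {x.1, x.2} = N then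
        (if x.1 ∈ V i ∧ x.2 ∈ V i then w i * ((ω i x.1 x.2 : ℂˣ) : ℂ) else 0) else 0 := by
      intro i
      have e2 : ∀ x : Q × Q, Subgroup.closure {x.1, x.2} = N → (N ≤ V i ↔ (x.1 ∈ V i ∧ x.2 ∈ V i)) := by
        intro x hx
        rw [← hx, Subgroup.closure_le]
        constructor
        · intro h
          exact ⟨h (Set.mem_insert _ _), h (Set.mem_insert_of_mem _ rfl)⟩
        · rintro ⟨ha, hb⟩ y hy
          rcases hy with rfl | rfl
          · exact ha
          · exact hb
      split_ifs with h
      · unfold JQ
        rw [GEN_fin, Finset.mul_sum]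
        apply Finset.sum_congr rfl
        intro x _
        simp only [Set.mem_setOf_eq]
        split_ifs with a b b
        · rfl
        · exact absurd ((e2 x a).1 h) b
        · simp
      · rw [mul_zero]
        symm
        apply Finset.sum_eq_zero
        intro x _
        split_ifs with a b
        · exact absurd ((e2 x a).2 b) h
        · rfl
        · rfl
    rw [Finset.sum_congr rfl (fun i _ => e1 i), Finset.sum_comm]
    change ∑ x ∈ Finset.univ.filter (fun x : Q × Q => Subgroup.closure {x.1, x.2} = N), f x = _
    rw [Finset.sum_filter]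
    apply Finset.sum_congr rfl
    intro x _
    split_ifs with h
    · rfl
    · simp
  rw [← h3]
  exact h2 N le_rfl

end Pool.Agent.NQ
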